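import Pool.Agent.V11101.Sen3

set_option autoImplicit false

/-!
# MP_8e1908: the extremal critical-point distance at a fixed zero

For every `a ∈ (0,1)` there is `ε > 0` with `δ_n(a) ≤ 1 - ε` for all large `n`; in particular
`δ_n(a)` does not tend to `1`, so the assertion of Q1 is false (for every `a`).
-/

open Finset Filter Polynomial

namespace Pool.Agent.Results.MP_8e1908_an.LimsupBelowOne

open Pool.Agent.V11101.Sen

/-- `d(a,P)`: the distance from `a` to the nearest critical point of `P`. -/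
noncomputable def critDist (a : ℂ) (P : ℂ[X]) : ℝ :=
  sInf {r | ∃ ζ : ℂ, P.derivative.eval ζ = 0 ∧ r = ‖ζ - a‖}

/-- Degree `n`, vanishing at `a`, all zeros in the closed unit disk. -/
def Admissible (n : ℕ) (a : ℂ) (P : ℂ[X]) : Prop :=
  P.natDegree = n ∧ P.eval a = 0 ∧ ∀ z : ℂ, P.eval z = 0 → ‖z‖ ≤ 1

/-- `δ_n(a)` -/
noncomputable def delta (n : ℕ) (a : ℂ) : ℝ :=
  sSup {d | ∃ P : ℂ[X], Admissible n a P ∧ d = critDist a P}

/-- choice of the parameters -/
theorem params (a : ℝ) (ha0 : 0 < a) (ha1 : a < 1) : ∃ s0 L x0 : ℝ, 0 < s0 ∧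
    4 * s0 ≤ (a / 16) ^ 2 / 256 ∧ 192 * s0 ≤ a / 256 ∧ s0 ≤ a / 2 ∧ s0 ≤ (1 - a) / 8 ∧
    L = Real.log (64 / (a * s0)) ∧ 0 < L ∧ 0 < x0 ∧ x0 ≤ s0 ∧ x0 ≤ (1 - a) / 4 ∧
    x0 * (2560 * L) ≤ s0 * a * ((1 - a) / 2) := by
  obtain ⟨s0, hs0, hs0a, hs0b⟩ : ∃ s0 : ℝ, 0 < s0 ∧ s0 ≤ (a / 16) ^ 2 / 1024 ∧
      s0 ≤ (1 - a) / 8 := by
    refine ⟨min ((a / 16) ^ 2 / 1024) ((1 - a) / 8), ?_, min_le_left _ _, min_le_right _ _⟩
    apply lt_min
    · positivity
    · linarith
  have hL : 0 < Real.log (64 / (a * s0)) := by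
    apply Real.log_pos
    rw [lt_div_iff₀ (by positivity)]
    have h1 : s0 < 1 := by nlinarith
    have h2 : a * s0 < 1 := by nlinarith
    linarith
  have hp : 0 < s0 * a * ((1 - a) / 2) / (2560 * Real.log (64 / (a * s0))) := by
    have : 0 < 1 - a := by linarith
    positivity
  refine ⟨s0, Real.log (64 / (a * s0)),
    min (min s0 ((1 - a) / 4)) (s0 * a * ((1 - a) / 2) / (2560 * Real.log (64 / (a * s0)))),
    hs0, by linarith, ?_, ?_, hs0b, rfl, hL, ?_, ?_, ?_, ?_⟩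
  · have : a ^ 2 ≤ a := by nlinarith
    have e : (a / 16) ^ 2 / 1024 = a ^ 2 / 262144 := by ring
    rw [e] at hs0a
    linarith
  · have : a ^ 2 ≤ a := by nlinarith
    have e : (a / 16) ^ 2 / 1024 = a ^ 2 / 262144 := by ring
    rw [e] at hs0a
    linarith
  · exact lt_min (lt_min hs0 (by linarith)) hp
  · exact (min_le_left _ _).trans (min_le_left _ _)
  · exact (min_le_left _ _).trans (min_le_right _ _)
  · rw [← le_div_iff₀ (by positivity)]
    exact min_le_right _ _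

theorem big1 (a s0 m : ℝ) (ha0 : 0 < a) (hs0 : 0 < s0)
    (hm : 4096 * 256 / (s0 * a ^ 2) ≤ m) :
    Real.exp (-(m * (s0 / 2) * (a / 1024) / 2)) ≤ a / 256 := by
  have h1 : (256 : ℝ) / a ≤ m * (s0 / 2) * (a / 1024) / 2 := by
    rw [div_le_iff₀ (by positivity)] at hm
    rw [div_le_iff₀ ha0]
    linarith
  rw [Real.exp_neg]
  apply inv_le_of_inv_le₀ (by positivity)
  rw [inv_div]
  have := Real.add_one_le_exp (m * (s0 / 2) * (a / 1024) / 2)
  linarith

theorem big2 (q m : ℝ) (hq : 0 < q) (hm0 : 0 < m) (hm : 16 / q ^ 2 ≤ m) :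
    Real.exp (-(m * q)) ≤ 1 / (8 * m) := by
  rw [div_le_iff₀ (by positivity)] at hm
  rw [Real.exp_neg]
  apply inv_le_of_inv_le₀ (by positivity)
  rw [one_div, inv_inv]
  have h1 := Real.quadratic_le_exp_of_nonneg (x := m * q) (by positivity)
  have h2 : 8 * (m : ℝ) ≤ (m * q) ^ 2 / 2 := by nlinarith
  have h3 : 0 < m * q := by positivity
  linarith

theorem log8 : Real.log 8 ≤ 3 := by
  have h1 : Real.log 8 = 3 * Real.log 2 := by
    rw [show (8 : ℝ) = 2 ^ 3 by norm_num, Real.log_pow]; norm_num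
  have := Real.log_two_lt_d9
  rw [h1]; linarith

theorem count2 (N L m x0 s0 a η ε : ℝ) (hN : 0 ≤ N) (hL : 0 < L) (hm : 1 ≤ m) (hx0 : 0 < x0)
    (hη : 0 < η) (hx0η : x0 ≤ η / 2) (hx0L : x0 * (2560 * L) ≤ s0 * a * η)
    (hε : 2 * ε ≤ x0 / 2)
    (hcount : (η - x0) * N ≤ (m + 1) * x0 + 2 * ε * m + 3) :
    N * L ≤ m * (s0 * a / 512) + 6 * L / η := by
  have hN1 : η / 2 * N ≤ 5 / 2 * m * x0 + 3 := by
    have h1 : η / 2 * N ≤ (η - x0) * N := by
      apply mul_le_mul_of_nonneg_right _ hN; linarith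
    have h3 : 2 * ε * m ≤ x0 / 2 * m := by
      apply mul_le_mul_of_nonneg_right hε; linarith
    have h4 : x0 * 1 ≤ x0 * m := by gcongr
    linarith
  have h1 : N ≤ (5 * m * x0 + 6) / η := by
    rw [le_div_iff₀ hη]; linarith
  have hm0 : 0 < m := by linarith
  calc N * L ≤ (5 * m * x0 + 6) / η * L := by gcongr
    _ = m * (x0 * (2560 * L)) / (512 * η) + 6 * L / η := by field_simp; ring
    _ ≤ m * (s0 * a * η) / (512 * η) + 6 * L / η := by gcongr
    _ = _ := by field_simp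

theorem logm (m s0 a t : ℝ) (hm : 0 < m) (hs0 : 0 < s0) (ht0 : 0 < t)
    (ht : t = s0 * (s0 * a / 512) / 4) :
    Real.log (4 * (m + 1) / s0) ≤ (m + 1) * (s0 * a / 512) - 1 - Real.log t := by
  have h1 : 0 < 4 * (m + 1) / s0 := by positivity
  have h2 := Real.log_le_sub_one_of_pos (x := 4 * (m + 1) / s0 * t) (by positivity)
  rw [Real.log_mul h1.ne' ht0.ne'] at h2
  have h3 : 4 * (m + 1) / s0 * t = (m + 1) * (s0 * a / 512) := by
    rw [ht]; field_simp
  rw [h3] at h2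
  linarith

/-- no configuration for large `m` -/
theorem no_config (a : ℝ) (ha0 : 0 < a) (ha1 : a < 1) : ∃ ε : ℝ, 0 < ε ∧ ∃ M : ℕ, ∀ m : ℕ,
    M ≤ m → ∀ (z : Fin (m + 1) → ℂ) (ζ : Fin m → ℂ), ¬ Config a ε m z ζ := by
  obtain ⟨s0, L, x0, hs0, hs1, hs2, hsa, hs0b, hLdef, hL, hx0, hx0s, hx0η, hx0L⟩ :=
    params a ha0 ha1
  obtain ⟨ε, hεdef⟩ : ∃ ε, ε = x0 * a / 4 := ⟨_, rfl⟩
  have hε0 : 0 < ε := by rw [hεdef]; positivity
  have hx1 : x0 ≤ 1 := by linarith
  have hxa : x0 ≤ a := by linarith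
  have hε : ε ≤ 1 / 2 := by
    rw [hεdef]
    have : x0 * a ≤ 1 * 1 := mul_le_mul hx1 ha1.le ha0.le zero_le_one
    linarith
  have hε2 : ε ≤ a ^ 2 / 4 := by
    rw [hεdef, sq]
    have : x0 * a ≤ a * a := mul_le_mul_of_nonneg_right hxa ha0.le
    linarith
  have hεx : 2 * ε ≤ x0 * a / 2 := by rw [hεdef]; linarith
  have hεx2 : 2 * ε ≤ x0 / 2 := by
    have : x0 * a ≤ x0 * 1 := mul_le_mul_of_nonneg_left ha1.le hx0.le
    linarith
  -- largeness
  obtain ⟨t, ht⟩ : ∃ t, t = s0 * (s0 * a / 512) / 4 := ⟨_, rfl⟩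
  have ht0 : 0 < t := by rw [ht]; positivity
  obtain ⟨M, hM⟩ := exists_nat_ge (max (max (4096 * 256 / (s0 * a ^ 2))
    (16 / (s0 * x0 / 16) ^ 2)) (max ((6 * L / ((1 - a) / 2) + s0 * a / 512 - 1 - Real.log t + 1) /
      (s0 * a / 256)) 1))
  refine ⟨ε, hε0, M, fun m hm z ζ h => ?_⟩
  have hmM := hM.trans (show (M : ℝ) ≤ (m : ℝ) by exact_mod_cast hm)
  have hmK1 := ((le_max_left _ _).trans (le_max_left _ _)).trans hmM
  have hmK2 := ((le_max_right _ _).trans (le_max_left _ _)).trans hmM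
  have hmK3 := ((le_max_left _ _).trans (le_max_right _ _)).trans hmM
  have hm1 := ((le_max_right _ _).trans (le_max_right _ _)).trans hmM
  have hm0 : (0 : ℝ) < m := by linarith
  have hmpos : 0 < m := by exact_mod_cast hm0
  have hbig := big1 a s0 m ha0 hs0 hmK1
  have hbig2 := big2 (s0 * x0 / 16) m (by positivity) hm0 hmK2
  have hmain := main_ineq h ha0 ha1 hε0 hε hε2 hmpos s0 hs0 hs1 hs2 hbig
  have hcount := count_ineq h ha0 ha1 hε0 hε hε2 hmpos s0 x0 ((1 - a) / 2) hs0 hs1 hbig hx0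
    (by linarith) hεx hbig2 (by linarith)
  -- near zeros are far from the unit circle
  have hsub : (near z ((a - s0 : ℝ) : ℂ) (4 * s0)).card ≤
      (Finset.univ.filter (fun j => ‖z j‖ ≤ 1 - (1 - a) / 2)).card := by
    apply Finset.card_le_card
    intro j hj
    unfold near at hj
    rw [Finset.mem_filter] at hj ⊢
    refine ⟨hj.1, ?_⟩
    have h1 : ‖z j‖ ≤ ‖z j - ((a - s0 : ℝ) : ℂ)‖ + ‖((a - s0 : ℝ) : ℂ)‖ := by
      have := norm_add_le (z j - ((a - s0 : ℝ) : ℂ)) ((a - s0 : ℝ) : ℂ)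
      simpa using this
    rw [Complex.norm_real, Real.norm_of_nonneg (by linarith)] at h1
    linarith [hj.2]
  have hnear : ((near z ((a - s0 : ℝ) : ℂ) (4 * s0)).card : ℝ) ≤
      ((Finset.univ.filter (fun j => ‖z j‖ ≤ 1 - (1 - a) / 2)).card : ℝ) := by
    exact_mod_cast hsub
  have hNL := count2 ((Finset.univ.filter (fun j => ‖z j‖ ≤ 1 - (1 - a) / 2)).card : ℝ)
    L m x0 s0 a ((1 - a) / 2) ε (Nat.cast_nonneg _) hL hm1 hx0 (by linarith) (by linarith) hx0L
    hεx2 (by have := log8; linarith)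
  have hlogm := logm m s0 a t hm0 hs0 ht0 ht
  rw [← hLdef] at hmain
  have hfin : m * s0 * (a / 128) ≤ m * (s0 * a / 512) + 6 * L / ((1 - a) / 2) +
      ((m + 1) * (s0 * a / 512) - 1 - Real.log t) := by
    have h1 := mul_le_mul_of_nonneg_right hnear hL.le
    linarith
  rw [div_le_iff₀ (by positivity)] at hmK3
  have : m * s0 * (a / 128) = m * (s0 * a / 256) + m * (s0 * a / 512) + m * (s0 * a / 512) := by
    ring
  rw [this] at hfin
  linarith

/-- indexing a multiset by `Fin` -/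
theorem exists_fin (s : Multiset ℂ) (n : ℕ) (hn : s.card = n) :
    ∃ z : Fin n → ℂ, (∀ x : ℂ, (s.map (fun r => x - r)).prod = ∏ j, (x - z j)) ∧
      (∀ j, z j ∈ s) ∧ ∀ r ∈ s, ∃ j, z j = r := by
  subst hn
  have hl : s.toList.length = s.card := Multiset.length_toList s
  refine ⟨fun j => s.toList.get (Fin.cast hl.symm j), ?_, ?_, ?_⟩
  · intro x
    have h1 : (s.map (fun r => x - r)) = ((s.toList.map (fun r => x - r) : List ℂ) : Multiset ℂ) := by
      rw [← Multiset.map_coe, Multiset.coe_toList]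
    rw [h1, Multiset.prod_coe]
    rw [← List.prod_ofFn]
    congr 1
    apply List.ext_get
    · simp [hl]
    · intro i h1 h2
      simp
  · intro j
    rw [← Multiset.mem_toList]
    exact List.get_mem _ _
  · intro r hr
    rw [← Multiset.mem_toList] at hr
    obtain ⟨i, hi⟩ := List.get_of_mem hr
    exact ⟨Fin.cast hl i, by simpa using hi⟩

theorem eval_eq (P : ℂ[X]) (x : ℂ) :
    P.eval x = P.leadingCoeff * (P.roots.map (fun r => x - r)).prod := by
  exact (IsAlgClosed.splits P).eval_eq_prod_roots x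

/-- The polynomial form. -/
theorem close_critical (a : ℝ) (ha0 : 0 < a) (ha1 : a < 1) : ∃ ε : ℝ, 0 < ε ∧ ∃ M : ℕ, ∀ n : ℕ,
    M ≤ n → ∀ P : ℂ[X], Admissible n a P →
      ∃ ζ : ℂ, P.derivative.eval ζ = 0 ∧ ‖ζ - a‖ < 1 - ε := by
  obtain ⟨ε, hε, M, hM⟩ := no_config a ha0 ha1
  refine ⟨ε, hε, M + 2, fun n hn P hP => ?_⟩
  obtain ⟨hdeg, hPa, hroots⟩ := hP
  obtain ⟨m, rfl⟩ : ∃ m, n = m + 1 := ⟨n - 1, by omega⟩
  have hP0 : P ≠ 0 := by
    intro h; rw [h, natDegree_zero] at hdeg; omega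
  have hlc : P.leadingCoeff ≠ 0 := leadingCoeff_ne_zero.2 hP0
  have hd_deg : P.derivative.natDegree = m := by
    rw [natDegree_derivative, hdeg]; rfl
  have hd_lc : P.derivative.leadingCoeff = P.leadingCoeff * ((m : ℂ) + 1) := by
    rw [leadingCoeff, hd_deg, coeff_derivative, leadingCoeff, hdeg]
  have hm1 : ((m : ℂ) + 1) ≠ 0 := by exact_mod_cast Nat.succ_ne_zero m
  have hd0 : P.derivative ≠ 0 := by
    rw [← leadingCoeff_ne_zero, hd_lc]; exact mul_ne_zero hlc hm1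
  have hcard : P.roots.card = m + 1 := by
    rw [← hdeg]; exact (IsAlgClosed.splits P).natDegree_eq_card_roots.symm
  have hdcard : P.derivative.roots.card = m := by
    rw [← hd_deg]; exact (IsAlgClosed.splits _).natDegree_eq_card_roots.symm
  obtain ⟨z, hz1, hz2, hz3⟩ := exists_fin P.roots (m + 1) hcard
  obtain ⟨ζ, hζ1, hζ2, hζ3⟩ := exists_fin P.derivative.roots m hdcard
  by_contra hcon
  push Not at hcon
  refine hM m (by omega) z ζ ⟨?_, ?_, ?_, ?_, ?_⟩
  · intro x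
    have h1 : (fun x : ℂ => ∏ j, (x - z j)) = fun x => P.eval x / P.leadingCoeff := by
      funext x
      rw [eval_eq, hz1]
      field_simp
    rw [h1]
    have h2 := (P.hasDerivAt x).div_const P.leadingCoeff
    refine h2.congr_deriv ?_
    rw [eval_eq P.derivative, hd_lc, hζ1]
    field_simp
  · intro j
    exact hroots _ (isRoot_of_mem_roots (hz2 j))
  · intro j
    have h1 : ζ j ∈ P.derivative.rootSet ℂ := by
      rw [mem_rootSet]
      refine ⟨hd0, ?_⟩
      have := isRoot_of_mem_roots (hζ2 j)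
      simpa [aeval_def] using this
    have h2 := Polynomial.rootSet_derivative_subset_convexHull_rootSet (by
      rw [← natDegree_pos_iff_degree_pos]; omega) h1
    have h3 : convexHull ℝ (P.rootSet ℂ) ⊆ Metric.closedBall 0 1 := by
      apply convexHull_min _ (convex_closedBall _ _)
      intro w hw
      rw [mem_rootSet] at hw
      rw [mem_closedBall_zero_iff]
      apply hroots
      simpa [aeval_def] using hw.2
    have := h3 h2
    rwa [mem_closedBall_zero_iff] at this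
  · exact hz3 a ((mem_roots hP0).2 hPa)
  · intro j
    exact hcon _ (isRoot_of_mem_roots (hζ2 j))

/-- **Main theorem.** For every `a ∈ (0,1)` the numbers `δ_n(a)` stay below `1 - ε` for some
`ε > 0` and all large `n`; in particular `δ_n(a)` does not tend to `1`, for any `a ∈ (0,1)`. -/
theorem result (a : ℝ) (ha0 : 0 < a) (ha1 : a < 1) :
    (∃ ε : ℝ, 0 < ε ∧ ∀ᶠ n : ℕ in atTop, delta n a ≤ 1 - ε) ∧
    ¬ Tendsto (fun n : ℕ => delta n a) atTop (nhds 1) := by
  have h1 : ∃ ε : ℝ, 0 < ε ∧ ∀ᶠ n : ℕ in atTop, delta n a ≤ 1 - ε := by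
    obtain ⟨ε, hε, M, hM⟩ := close_critical a ha0 ha1
    refine ⟨ε, hε, ?_⟩
    filter_upwards [eventually_ge_atTop (max M 1)] with n hn
    have hnM : M ≤ n := (le_max_left _ _).trans hn
    have hn1 : n ≠ 0 := by have := (le_max_right M 1).trans hn; omega
    unfold delta
    have hne : {d | ∃ P : ℂ[X], Admissible n a P ∧ d = critDist a P}.Nonempty := by
      refine ⟨_, (X - C (a : ℂ)) ^ n, ⟨?_, ?_, ?_⟩, rfl⟩
      · rw [natDegree_pow, natDegree_X_sub_C, mul_one]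
      · simp [hn1]
      · intro z hz
        have : z = a := by
          rw [eval_pow] at hz
          have := (pow_eq_zero_iff hn1).1 hz
          simpa [sub_eq_zero] using this
        rw [this, Complex.norm_real, Real.norm_of_nonneg ha0.le]
        exact ha1.le
    · apply csSup_le hne
      rintro d ⟨P, hP, rfl⟩
      obtain ⟨ζ, hζ, hζn⟩ := hM n hnM P hP
      unfold critDist
      have hmem : ‖ζ - (a : ℂ)‖ ∈ {r | ∃ ζ : ℂ, P.derivative.eval ζ = 0 ∧ r = ‖ζ - (a : ℂ)‖} :=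
        ⟨ζ, hζ, rfl⟩
      refine (csInf_le ⟨0, ?_⟩ hmem).trans hζn.le
      rintro r ⟨w, _, rfl⟩
      exact norm_nonneg _
  refine ⟨h1, fun ht => ?_⟩
  obtain ⟨ε, hε, hev⟩ := h1
  have := le_of_tendsto ht hev
  linarith

end Pool.Agent.Results.MP_8e1908_an.LimsupBelowOne
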